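import Pool.Agent.H3.Ac2

set_option autoImplicit false

namespace Pool.Agent.Results.MP_b17c1b_co.Gap

open Pool.Agent.H3.Ac

/-- An acyclic edge colouring: adjacent edges get different colours and no cycle has all its edges
in the union of two colour classes. -/
def IsAcyclicColouring {V : Type} (G : SimpleGraph V) (c : Sym2 V → ℕ) : Prop :=
  (∀ a b d, G.Adj a b → G.Adj a d → b ≠ d → c s(a, b) ≠ c s(a, d)) ∧
    ∀ (v : V) (w : G.Walk v v), w.IsCycle → ∀ α β : ℕ, ¬ ∀ e ∈ w.edges, c e = α ∨ c e = β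

/-- The acyclic chromatic index. -/
noncomputable def acyclicIndex {V : Type} (G : SimpleGraph V) : ℕ :=
  sInf {k | ∃ c, IsAcyclicColouring G c ∧ ∀ e ∈ G.edgeSet, c e < k}

/-- The acyclic list chromatic index. -/
noncomputable def acyclicListIndex {V : Type} (G : SimpleGraph V) : ℕ :=
  sInf {k | ∀ L : Sym2 V → Finset ℕ, (∀ e ∈ G.edgeSet, (L e).card = k) →
    ∃ c, IsAcyclicColouring G c ∧ ∀ e ∈ G.edgeSet, c e ∈ L e}

/-- A finite simple graph whose acyclic list chromatic index exceeds its acyclic chromatic index. -/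
theorem result : ∃ (n : ℕ) (G : SimpleGraph (Fin n)), acyclicIndex G < acyclicListIndex G := by
  refine ⟨108, GG, lt_of_le_of_lt (Nat.sInf_le (m := 3)
    ⟨fun e => (c3 e).1, good, fun e _ => (c3 e).2⟩) ?_⟩
  by_contra hc
  have h := Nat.sInf_mem (s := {k | ∀ L : Sym2 (Fin 108) → Finset ℕ,
    (∀ e ∈ GG.edgeSet, (L e).card = k) → ∃ c, IsAcyclicColouring GG c ∧ ∀ e ∈ GG.edgeSet, c e ∈ L e})
    ⟨_, big GG⟩
  have h1 : ∀ e, ∃ t ⊆ LL e, e ∈ GG.edgeSet → t.card = acyclicListIndex GG := fun e => by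
    by_cases he : e ∈ GG.edgeSet
    · obtain ⟨t, a, b⟩ := Finset.exists_subset_card_eq (s := LL e) (n := acyclicListIndex GG)
        ((not_lt.1 hc).trans (LL_card e he).ge)
      exact ⟨t, a, fun _ => b⟩
    · exact ⟨∅, Finset.empty_subset _, fun h => (he h).elim⟩
  choose L h2 h3 using h1
  obtain ⟨c, h4, h5⟩ := h L h3
  exact bad c h4 fun e he => h2 e (h5 e he)

end Pool.Agent.Results.MP_b17c1b_co.Gap
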